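import Pool.Agent.W614.Dg.Trans

/-!
Blocks of the iteration of a dgsm, limit words, and decodings from a filter relation.
-/

set_option autoImplicit false

namespace Pool.Agent.TH381.Dg

open Pool.Agent.H584R2.Dg Pool.Agent.W614.Dg

variable {S T : Type}

/-- The blocks of the iteration: the state before reading the block, and the block. -/
def cb (τ : Dgsm S) (q : τ.Q) (u : List S) : ℕ → τ.Q × List S
  | 0 => (q, u)
  | n + 1 => (stAfter τ (cb τ q u n).1 (cb τ q u n).2, τ.run (cb τ q u n).1 (cb τ q u n).2)

theorem map_iter {τ : Dgsm S} {a : S} {u : List S} (hout : τ.out τ.init a = a :: u) (n : ℕ) :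
    τ.map^[n + 1] [a] = τ.map^[n] [a] ++ (cb τ (τ.next τ.init a) u n).2 ∧
    stAfter τ τ.init (τ.map^[n] [a]) = (cb τ (τ.next τ.init a) u n).1 := by
  induction n with
  | zero => simp [Dgsm.map, Dgsm.run, stAfter, cb, hout]
  | succ n ih =>
    obtain ⟨h1, h2⟩ := ih
    constructor
    · rw [Function.iterate_succ_apply' (n := n + 1)]
      conv_lhs => rw [h1]
      unfold Dgsm.map
      rw [run_append]
      have h3 : τ.run τ.init ((fun v => τ.run τ.init v)^[n] [a]) = τ.map^[n + 1] [a] := by
        rw [Function.iterate_succ_apply']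
        rfl
      have h4 : stAfter τ τ.init ((fun v => τ.run τ.init v)^[n] [a]) =
          (cb τ (τ.next τ.init a) u n).1 := h2
      rw [h3, h4]
      rfl
    · rw [h1, stAfter_append, h2]
      rfl

theorem cb_pos {τ : Dgsm S} (hne : τ.NonErasing) (q : τ.Q) {u : List S} (hu : u ≠ []) (n : ℕ) :
    1 ≤ (cb τ q u n).2.length := by
  induction n with
  | zero => exact List.length_pos_of_ne_nil hu
  | succ n ih => exact ih.trans (run_length hne _ _)

theorem iter_length {τ : Dgsm S} (hne : τ.NonErasing) {a : S} {u : List S}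
    (hout : τ.out τ.init a = a :: u) (hu : u ≠ []) (n : ℕ) :
    n + 1 ≤ (τ.map^[n] [a]).length := by
  induction n with
  | zero => simp
  | succ n ih =>
    rw [(map_iter hout n).1, List.length_append]
    have := cb_pos hne (τ.next τ.init a) hu n
    omega

theorem iter_prefix {τ : Dgsm S} {a : S} {u : List S} (hout : τ.out τ.init a = a :: u)
    {m n : ℕ} (h : m ≤ n) : τ.map^[m] [a] <+: τ.map^[n] [a] := by
  induction n, h using Nat.le_induction with
  | base => exact List.prefix_rfl
  | succ n _ ih =>
    rw [(map_iter hout n).1]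
    exact ih.trans (List.prefix_append _ _)

theorem prefix_getElem {l l' : List S} (h : l <+: l') (i : ℕ) (hi : i < l.length)
    (hi' : i < l'.length) : l[i] = l'[i] := by
  obtain ⟨t, rfl⟩ := h
  rw [List.getElem_append_left hi]

/-- Limit words exist. -/
theorem exists_limit {τ : Dgsm S} (hne : τ.NonErasing) {a : S} {u : List S}
    (hout : τ.out τ.init a = a :: u) (hu : u ≠ []) : ∃ w, τ.IsLimit a w := by
  have hl := iter_length hne hout hu
  refine ⟨fun i => (τ.map^[i] [a])[i]'(hl i), ?_, ?_, ?_⟩
  · exact ⟨u, by simp [Dgsm.map, Dgsm.run, hout]⟩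
  · intro N
    exact ⟨N, by have := hl N; omega⟩
  · intro n i hi
    rcases le_total i n with h | h
    · exact (prefix_getElem (iter_prefix hout h) i (hl i) hi).symm
    · exact prefix_getElem (iter_prefix hout h) i hi (hl i)

/-- The word `u` with `τ(a) = a u`. -/
theorem IsLimit.exists_out {τ : Dgsm S} {a : S} {w : ℕ → S} (hne : τ.NonErasing)
    (hw : τ.IsLimit a w) : ∃ u : List S, τ.out τ.init a = a :: u ∧ u ≠ [] := by
  obtain ⟨u, h1, h2, -, -⟩ := trace_of_isLimit hne hw
  exact ⟨u, h1, h2⟩

theorem pre_eq_take {w : ℕ → S} {l : List S} (h : IsPre l w) {N : ℕ} (hN : N ≤ l.length) :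
    pre w N = l.take N := by
  apply List.ext_getElem
  · simp; omega
  · intro i h1 h2
    rw [pre_getElem, List.getElem_take]
    exact (h i (by simp at h1; omega)).symm

/-- A decoding from a filter relation between prefixes. -/
theorem dec_of_filter {S' : Type} {h : S' → Option S} {w' : ℕ → S'} {w : ℕ → S}
    (X' : ℕ → List S') (X : ℕ → List S) (hX' : ∀ n, IsPre (X' n) w') (hX : ∀ n, IsPre (X n) w)
    (hf : ∀ n, (X' n).filterMap h = X n) (hl : ∀ n, n + 1 ≤ (X n).length)
    (h0 : (h (w' 0)).isSome) : ∃ P, Dec h w' w P ∧ ∀ k, P k < (X' k).length := by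
  classical
  obtain ⟨p, hp⟩ : ∃ p : ℕ → Prop, p = fun r => (h (w' r)).isSome = true := ⟨_, rfl⟩
  have hp' : ∀ r, p r ↔ (h (w' r)).isSome = true := by intro r; rw [hp]
  have hle : ∀ n, n + 1 ≤ (X' n).length := by
    intro n
    have h1 := List.length_filterMap_le h (X' n)
    rw [hf] at h1
    have := hl n
    omega
  have hcount : ∀ N, ((pre w' N).filterMap h).length = Nat.count p N := by
    intro N
    induction N with
    | zero => simp [pre]
    | succ N ih =>
      rw [pre_succ, List.filterMap_append, List.length_append, ih, Nat.count_succ]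
      congr 1
      by_cases hN : p N
      · rw [if_pos hN]
        rw [hp'] at hN
        obtain ⟨x, hx⟩ := Option.isSome_iff_exists.1 hN
        simp [hx]
      · rw [if_neg hN]
        rw [hp', Bool.not_eq_true, Option.isSome_eq_false_iff, Option.isNone_iff_eq_none] at hN
        simp [hN]
  have hfp : ∀ N, (pre w' N).filterMap h = pre w (Nat.count p N) := by
    intro N
    have h1 : pre w' N = (X' N).take N := pre_eq_take (hX' N) (by have := hle N; omega)
    have h2 : (pre w' N).filterMap h <+: X N := by
      rw [h1, ← hf N]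
      exact (List.take_prefix N (X' N)).filterMap h
    have h3 := h2.length_le
    rw [hcount] at h3
    rw [pre_eq_take (hX N) h3, ← hcount]
    exact List.prefix_iff_eq_take.1 h2
  have hcX : ∀ n, Nat.count p (X' n).length = (X n).length := by
    intro n
    have h1 := isPre_iff.1 (hX' n)
    rw [← hcount, ← h1, hf]
  have hinf : (Set.ofPred p).Infinite := by
    intro hfin
    have h1 := Nat.count_le_card hfin (X' (hfin.toFinset.card)).length
    rw [hcX] at h1
    have := hl (hfin.toFinset.card)
    omega
  refine ⟨Nat.nth p, ⟨Nat.nth_strictMono hinf, Nat.nth_zero_of_zero ((hp' 0).2 h0), ?_, ?_⟩, ?_⟩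
  · intro k
    have h1 : p (Nat.nth p k) := Nat.nth_mem_of_infinite hinf k
    have h2 := Nat.count_nth_of_infinite hinf k
    obtain ⟨x, hx⟩ := Option.isSome_iff_exists.1 ((hp' _).1 h1)
    have h3 := hfp (Nat.nth p k + 1)
    rw [Nat.count_succ, if_pos h1, h2, pre_succ, pre_succ, List.filterMap_append, hfp, h2] at h3
    simp only [List.filterMap_cons, hx, List.filterMap_nil] at h3
    have h4 := List.append_cancel_left h3
    simp only [List.cons.injEq, and_true] at h4
    rw [hx, h4]
  · intro k r h1 h2
    by_contra hc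
    have h3 : p r := by
      rw [hp', Option.isSome_iff_ne_none]
      exact hc
    have h4 := Nat.nth_count h3
    rw [← h4, Nat.nth_lt_nth hinf] at h1 h2
    omega
  · intro k
    apply Nat.nth_lt_of_lt_count
    rw [hcX]
    have := hl k
    omega

end Pool.Agent.TH381.Dg
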