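import Pool.Agent.TH381.Dg.Prod

/-!
Every polynomial growth is hard.
-/

set_option autoImplicit false

namespace Pool.Agent.TH381.Dg

open Pool.Agent.H584R2.Dg Pool.Agent.W614.Dg

/-- Space transfer along a decoding. -/
theorem transfer_space {S S' : Type} {h : S' → Option S} {w' : ℕ → S'} {w : ℕ → S} {P G : ℕ → ℕ}
    (hd : Dec h w' w P) (hP : ∀ k, P k + 1 ≤ G (k + 1)) {s : ℕ → ℝ} (hs0 : ∀ n, 0 ≤ s n)
    (hs : Monotone s) (hw : InSpace s w') : InSpace (fun n => s (G n)) w := by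
  obtain ⟨k, M, C, hM, hC⟩ := hw
  obtain ⟨h1, h2⟩ := er_gen hd hM
  refine ⟨k, er h M, |C|, h1, ?_⟩
  intro n hn
  apply h2 n hn
  refine spaceLE_mono ?_ (hC (P (n - 1) + 1) (by omega))
  have h3 : P (n - 1) + 1 ≤ G n := by
    have := hP (n - 1)
    rwa [Nat.sub_add_cancel hn] at this
  calc C * s (P (n - 1) + 1) ≤ |C| * s (P (n - 1) + 1) :=
        mul_le_mul_of_nonneg_right (le_abs_self C) (hs0 _)
    _ ≤ |C| * s (G n) := mul_le_mul_of_nonneg_left (hs h3) (abs_nonneg C)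

/-- The core of the reduction. -/
theorem core {T : Type} [Finite T] {σ : Dgsm T} {b : T} {v : ℕ → T} (hσ : σ.NonErasing)
    (hv : σ.IsLimit b v) {ε c : ℝ} (hε : 0 < ε) (hc : 0 < c)
    (hg : ∀ n : ℕ, 1 ≤ n → c * (n : ℝ) ^ (1 + ε) ≤ ((σ.map^[n] [b]).length : ℝ))
    {S : Type} [Finite S] (τ : Dgsm S) (a : S) (w : ℕ → S) (hτ : τ.NonErasing)
    (hw : τ.IsLimit a w) :
    ∃ (S' : Type) (_ : Finite S') (τ' : Dgsm S') (a' : S') (w' : ℕ → S') (h : S' → Option S)
      (P : ℕ → ℕ) (A B d : ℕ), Nat.card τ'.Q = 2 * Nat.card σ.Q ∧ τ'.NonErasing ∧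
      τ'.IsLimit a' w' ∧
      (∀ n, (σ.map^[n] [b]).length ≤ (τ'.map^[n] [a']).length ∧
        (τ'.map^[n] [a']).length ≤ A * (σ.map^[n] [b]).length) ∧
      Dec h w' w P ∧ ∀ k, P k + 1 ≤ A * (σ.map^[B * (k + 1) ^ d] [b]).length := by
  obtain ⟨v', hv', hv0⟩ := IsLimit.exists_out hσ hv
  obtain ⟨S1, hS1, τ1, a1, w1, h1, P1, B1, d1, hcard, hne1, hw1, ⟨A1, hA1⟩, hd1, hB1⟩ :=
    reduction hε τ hτ a w hw
  obtain ⟨ρ, w', P2, hQ, hne, hlim, hd2, hlen, hP2⟩ := product hne1 hσ hw1 hv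
  obtain ⟨A, hA⟩ : ∃ A : ℕ, |A1| / c + 1 ≤ (A : ℝ) := exists_nat_ge _
  have hlow := iter_length hσ hv' hv0
  have hA0 : 0 ≤ |A1| / c := by positivity
  have hA1' : 1 ≤ A := by
    have : (1 : ℝ) ≤ A := by linarith
    exact_mod_cast this
  obtain ⟨u1, hu1, hu10⟩ := IsLimit.exists_out hne1 hw1
  have hlow1 := iter_length hne1 hu1 hu10
  have hgr : ∀ n, (ρ.map^[n] [PL.start]).length ≤ A * (σ.map^[n] [b]).length := by
    intro n
    rcases Nat.eq_zero_or_pos n with rfl | hn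
    · simpa using hA1'
    · have h2 := hlen n
      have h3 := hA1 n hn
      have h4 := hg n hn
      have hx : (0 : ℝ) ≤ (n : ℝ) ^ (1 + ε) := by positivity
      have h5 : ((τ1.map^[n] [a1]).length : ℝ) ≤ |A1| / c * ((σ.map^[n] [b]).length : ℝ) := by
        calc ((τ1.map^[n] [a1]).length : ℝ) ≤ A1 * (n : ℝ) ^ (1 + ε) := h3
          _ ≤ |A1| * (n : ℝ) ^ (1 + ε) := mul_le_mul_of_nonneg_right (le_abs_self _) hx
          _ = |A1| / c * (c * (n : ℝ) ^ (1 + ε)) := by field_simp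
          _ ≤ _ := mul_le_mul_of_nonneg_left h4 hA0
      have h6 : (((ρ.map^[n] [PL.start]).length : ℕ) : ℝ) + 1 =
          ((τ1.map^[n] [a1]).length : ℝ) + ((σ.map^[n] [b]).length : ℝ) := by exact_mod_cast h2
      have h7 : (((ρ.map^[n] [PL.start]).length : ℕ) : ℝ) ≤
          (A : ℝ) * ((σ.map^[n] [b]).length : ℝ) := by
        have h8 : (0 : ℝ) ≤ ((σ.map^[n] [b]).length : ℝ) := by positivity
        have h9 : (|A1| / c + 1) * ((σ.map^[n] [b]).length : ℝ) ≤
            (A : ℝ) * ((σ.map^[n] [b]).length : ℝ) := mul_le_mul_of_nonneg_right hA h8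
        linarith
      exact_mod_cast h7
  refine ⟨PL S1 T, inferInstance, ρ, .start, w', _, P2 ∘ P1, A, B1, d1, ?_, hne, hlim, ?_,
    hd1.comp hd2, ?_⟩
  · rw [hQ, hcard]
  · intro n
    refine ⟨?_, hgr n⟩
    have h2 := hlen n
    have h3 := hlow1 n
    omega
  · intro k
    simp only [Function.comp]
    have h2 := hP2 (P1 k)
    have h3 := hgr (P1 k)
    have h4 : (σ.map^[P1 k] [b]).length ≤ (σ.map^[B1 * (k + 1) ^ d1] [b]).length :=
      (iter_prefix hv' (by have := hB1 k; omega)).length_le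
    calc P2 (P1 k) + 1 ≤ (ρ.map^[P1 k] [PL.start]).length := h2
      _ ≤ A * (σ.map^[P1 k] [b]).length := h3
      _ ≤ _ := Nat.mul_le_mul_left _ h4

/-- The equivalence for a polynomially bounded growth. -/
theorem equiv_growth {T : Type} [Finite T] {σ : Dgsm T} {b : T} {v : ℕ → T} (hσ : σ.NonErasing)
    (hv : σ.IsLimit b v) {ε c : ℝ} (hε : 0 < ε) (hc : 0 < c)
    (hg : ∀ n : ℕ, 1 ≤ n → c * (n : ℝ) ^ (1 + ε) ≤ ((σ.map^[n] [b]).length : ℝ))
    {A0 D : ℕ} (hg2 : ∀ n : ℕ, 1 ≤ n → (σ.map^[n] [b]).length ≤ A0 * n ^ D)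
    {s : ℕ → ℝ} (hs0 : ∀ n, 0 ≤ s n)
    (hs : ∀ B d : ℕ, ∃ C : ℝ, ∀ n m : ℕ, 1 ≤ n → m ≤ B * n ^ d → s m ≤ C * s n) :
    (∀ (S : Type) [Finite S] (τ : Dgsm S) (a : S) (w : ℕ → S), τ.NonErasing →
      τ.IsLimit a w → InSpace s w) ↔
    ∀ (S : Type) [Finite S] (τ : Dgsm S) (a : S) (w : ℕ → S), τ.NonErasing →
      τ.IsLimit a w → Nat.card τ.Q = 2 * Nat.card σ.Q →
      (∃ A : ℕ, ∀ n : ℕ, (σ.map^[n] [b]).length ≤ (τ.map^[n] [a]).length ∧
        (τ.map^[n] [a]).length ≤ A * (σ.map^[n] [b]).length) → InSpace s w := by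
  constructor
  · intro H S _ τ a w h1 h2 _ _
    exact H S τ a w h1 h2
  · intro H S _ τ a w h1 h2
    obtain ⟨S', hS', τ', a', w', h, P, A, B, d, hQ, hne, hlim, hgr, hdec, hP⟩ :=
      core hσ hv hε hc hg τ a w h1 h2
    have hw' : InSpace s w' := H S' τ' a' w' hne hlim hQ ⟨A, hgr⟩
    have hb : ∀ n, (σ.map^[n] [b]).length ≤ (A0 + 1) * (n + 1) ^ D := by
      intro n
      rcases Nat.eq_zero_or_pos n with rfl | hn
      · simp
      · calc (σ.map^[n] [b]).length ≤ A0 * n ^ D := hg2 n hn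
          _ ≤ (A0 + 1) * (n + 1) ^ D :=
            Nat.mul_le_mul (by omega) (Nat.pow_le_pow_left (by omega) D)
    refine inSpace_dec (B := A * ((A0 + 1) * (B + 1) ^ D)) (d := d * D) hdec ?_ hs0 hs hw'
    intro k
    refine (hP k).trans ?_
    rw [mul_assoc]
    apply Nat.mul_le_mul_left
    refine (hb _).trans ?_
    rw [mul_assoc]
    apply Nat.mul_le_mul_left
    rw [pow_mul, ← mul_pow]
    apply Nat.pow_le_pow_left
    have : 1 ≤ (k + 1) ^ d := Nat.one_le_pow _ _ (by omega)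
    rw [add_mul]
    omega

/-- A one-state example with growth of order `n ^ d`. -/
def dk (d : ℕ) : Dgsm (Fin (d + 1)) where
  Q := Unit
  finQ := inferInstance
  init := ()
  next := fun _ _ => ()
  out := fun _ j => if (j : ℕ) = 0 then [j] else [j, ⟨j - 1, by omega⟩]

theorem dk_append (d : ℕ) (n : ℕ) (u v : List (Fin (d + 1))) :
    (dk d).map^[n] (u ++ v) = (dk d).map^[n] u ++ (dk d).map^[n] v := by
  induction n generalizing u v with
  | zero => rfl
  | succ n ih =>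
    rw [Function.iterate_succ_apply, Function.iterate_succ_apply, Function.iterate_succ_apply,
      ← ih]
    congr 1
    exact run_append (dk d) _ u v

theorem dk_bounds (d : ℕ) (n : ℕ) : ∀ (j : ℕ) (hj : j < d + 1),
    n.choose j ≤ ((dk d).map^[n] [⟨j, hj⟩]).length ∧
      ((dk d).map^[n] [⟨j, hj⟩]).length ≤ (n + 1) ^ j := by
  induction n with
  | zero =>
    intro j hj
    simp only [Function.iterate_zero, id, List.length_singleton, zero_add, one_pow, le_refl,
      and_true]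
    cases j <;> simp
  | succ n ih =>
    intro j hj
    rw [Function.iterate_succ_apply]
    cases j with
    | zero =>
      have e : (dk d).map [⟨0, hj⟩] = [⟨0, hj⟩] := rfl
      rw [e]
      have := ih 0 hj
      simpa using this
    | succ j =>
      have e : (dk d).map [⟨j + 1, hj⟩] = [⟨j + 1, hj⟩] ++ [⟨j, by omega⟩] := rfl
      rw [e, dk_append, List.length_append]
      obtain ⟨h1, h2⟩ := ih (j + 1) hj
      obtain ⟨h3, h4⟩ := ih j (by omega)
      constructor
      · rw [Nat.choose_succ_succ']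
        omega
      · have h5 : (n + 1) ^ j * (n + 1 + 1) ≤ (n + 1 + 1) ^ (j + 1) := by
          rw [pow_succ]
          exact Nat.mul_le_mul_right _ (Nat.pow_le_pow_left (by omega) j)
        have h6 : (n + 1) ^ j * (n + 1 + 1) = (n + 1) ^ (j + 1) + (n + 1) ^ j := by
          rw [pow_succ]; ring
        omega

theorem dk_lower (d : ℕ) : ∃ c : ℝ, 0 < c ∧ ∀ n : ℕ,
    c * (n : ℝ) ^ d ≤ (((dk d).map^[n] [⟨d, by omega⟩]).length : ℝ) := by
  have hf : (0 : ℝ) < (d.factorial : ℝ) := by exact_mod_cast d.factorial_pos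
  have hf1 : (1 : ℝ) ≤ (d.factorial : ℝ) := by exact_mod_cast d.factorial_pos
  have h2d : (0 : ℝ) < (2 * (d + 1) : ℝ) ^ d := by positivity
  refine ⟨1 / ((2 * (d + 1) : ℝ) ^ d * d.factorial), by positivity, ?_⟩
  intro n
  obtain ⟨h1, -⟩ := dk_bounds d n d (by omega)
  rcases Nat.lt_or_ge n (2 * d) with h | h
  · have h3 : (1 : ℝ) ≤ (((dk d).map^[n] [⟨d, by omega⟩]).length : ℝ) := by
      have hne : (dk d).NonErasing := by
        intro q x
        show (if (x : ℕ) = 0 then _ else _) ≠ []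
        split_ifs <;> simp
      have h4 : ∀ m, 1 ≤ ((dk d).map^[m] [⟨d, by omega⟩]).length := by
        intro m
        induction m with
        | zero => simp
        | succ m ih =>
          rw [Function.iterate_succ_apply']
          exact ih.trans (run_length hne _ _)
      exact_mod_cast h4 n
    refine le_trans ?_ h3
    rw [div_mul_eq_mul_div, one_mul, div_le_one (by positivity)]
    have h5 : (n : ℝ) ^ d ≤ (2 * (d + 1) : ℝ) ^ d := by
      apply pow_le_pow_left₀ (by positivity)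
      have : (n : ℝ) < 2 * d := by exact_mod_cast h
      linarith
    nlinarith
  · have h3 := Nat.pow_le_choose (α := ℝ) d n
    have h4 : ((n.choose d : ℕ) : ℝ) ≤ (((dk d).map^[n] [⟨d, by omega⟩]).length : ℝ) := by
      exact_mod_cast h1
    refine le_trans ?_ (h3.trans h4)
    have h5 : ((n : ℝ) / 2) ^ d ≤ (((n + 1 - d : ℕ) ^ d : ℕ) : ℝ) := by
      rw [Nat.cast_pow]
      apply pow_le_pow_left₀ (by positivity)
      have h6 : n ≤ 2 * (n + 1 - d) := by omega
      have h7 : (n : ℝ) ≤ 2 * ((n + 1 - d : ℕ) : ℝ) := by exact_mod_cast h6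
      linarith
    have h8 : (2 : ℝ) ^ d ≤ (2 * (d + 1) : ℝ) ^ d := by
      apply pow_le_pow_left₀ (by norm_num)
      have : (0 : ℝ) ≤ d := by positivity
      linarith
    have h9 : (0 : ℝ) < (2 : ℝ) ^ d := by positivity
    calc 1 / ((2 * (d + 1) : ℝ) ^ d * d.factorial) * (n : ℝ) ^ d
        ≤ 1 / ((2 : ℝ) ^ d * d.factorial) * (n : ℝ) ^ d := by
          apply mul_le_mul_of_nonneg_right _ (by positivity)
          apply one_div_le_one_div_of_le (by positivity)
          exact mul_le_mul_of_nonneg_right h8 hf.le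
      _ = ((n : ℝ) / 2) ^ d / d.factorial := by
          rw [div_pow]
          field_simp
      _ ≤ _ := by
          have := div_le_div_of_nonneg_right h5 hf.le
          simpa using this

end Pool.Agent.TH381.Dg
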