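import Pool.Agent.TH381.Dg.Blocks

/-!
Two iterations side by side.
-/

set_option autoImplicit false

namespace Pool.Agent.TH381.Dg

open Pool.Agent.H584R2.Dg Pool.Agent.W614.Dg

/-- Letters of the common iteration. -/
inductive PL (S T : Type)
  | start
  | l (x : S)
  | r (y : T)

instance finPL {S T : Type} [Finite S] [Finite T] : Finite (PL S T) := by
  let f : PL S T → Option (S ⊕ T) := fun z => match z with
    | .start => none
    | .l x => some (Sum.inl x)
    | .r y => some (Sum.inr y)
  apply Finite.of_injective f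
  intro z z' h
  cases z <;> cases z' <;> simp_all [f]

variable {S T : Type}

/-- The two iterations side by side: the blocks of the first one are followed by those of the
second one. -/
def pr (τ : Dgsm S) (σ : Dgsm T) (a : S) (b : T) (u : List S) (v : List T) : Dgsm (PL S T) where
  Q := τ.Q × σ.Q
  finQ := by
    have := τ.finQ
    have := σ.finQ
    infer_instance
  init := (τ.init, σ.init)
  next := fun s z => match z with
    | .start => (τ.next τ.init a, σ.next σ.init b)
    | .l x => (τ.next s.1 x, s.2)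
    | .r y => (s.1, σ.next s.2 y)
  out := fun s z => match z with
    | .start => .start :: (u.map .l ++ v.map .r)
    | .l x => (τ.out s.1 x).map .l
    | .r y => (σ.out s.2 y).map .r

section

variable {τ : Dgsm S} {σ : Dgsm T} {a : S} {b : T} {u : List S} {v : List T}

theorem pr_l (U : List S) (s : τ.Q × σ.Q) :
    (pr τ σ a b u v).run s (U.map .l) = (τ.run s.1 U).map .l ∧
      stAfter (pr τ σ a b u v) s (U.map .l) = (stAfter τ s.1 U, s.2) := by
  induction U generalizing s with
  | nil => exact ⟨rfl, rfl⟩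
  | cons x U ih =>
    obtain ⟨h1, h2⟩ := ih (τ.next s.1 x, s.2)
    constructor
    · have e : (pr τ σ a b u v).run s ((x :: U).map .l) =
          (τ.out s.1 x).map .l ++ (pr τ σ a b u v).run (τ.next s.1 x, s.2) (U.map .l) := rfl
      rw [e, h1]
      simp [Dgsm.run]
    · exact h2

theorem pr_r (V : List T) (s : τ.Q × σ.Q) :
    (pr τ σ a b u v).run s (V.map .r) = (σ.run s.2 V).map .r ∧
      stAfter (pr τ σ a b u v) s (V.map .r) = (s.1, stAfter σ s.2 V) := by
  induction V generalizing s with
  | nil => exact ⟨rfl, rfl⟩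
  | cons x V ih =>
    obtain ⟨h1, h2⟩ := ih (s.1, σ.next s.2 x)
    constructor
    · have e : (pr τ σ a b u v).run s ((x :: V).map .r) =
          (σ.out s.2 x).map .r ++ (pr τ σ a b u v).run (s.1, σ.next s.2 x) (V.map .r) := rfl
      rw [e, h1]
      simp [Dgsm.run]
    · exact h2

theorem pr_lr (U : List S) (V : List T) (s : τ.Q × σ.Q) :
    (pr τ σ a b u v).run s (U.map .l ++ V.map .r) =
        (τ.run s.1 U).map .l ++ (σ.run s.2 V).map .r ∧
      stAfter (pr τ σ a b u v) s (U.map .l ++ V.map .r) = (stAfter τ s.1 U, stAfter σ s.2 V) := by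
  have e1 := (pr_l (τ := τ) (σ := σ) (a := a) (b := b) (u := u) (v := v) U s).1
  have e2 := (pr_l (τ := τ) (σ := σ) (a := a) (b := b) (u := u) (v := v) U s).2
  have e3 := pr_r (τ := τ) (σ := σ) (a := a) (b := b) (u := u) (v := v) V (stAfter τ s.1 U, s.2)
  constructor
  · refine (run_append (pr τ σ a b u v) s _ _).trans ?_
    exact congrArg₂ (· ++ ·) e1
      ((congrArg (fun z => (pr τ σ a b u v).run z (V.map .r)) e2).trans e3.1)
  · refine (stAfter_append (pr τ σ a b u v) s _ _).trans ?_
    exact (congrArg (fun z => stAfter (pr τ σ a b u v) z (V.map .r)) e2).trans e3.2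

theorem pr_cb (n : ℕ) :
    cb (pr τ σ a b u v) (τ.next τ.init a, σ.next σ.init b) (u.map .l ++ v.map .r) n =
      (((cb τ (τ.next τ.init a) u n).1, (cb σ (σ.next σ.init b) v n).1),
        (cb τ (τ.next τ.init a) u n).2.map .l ++ (cb σ (σ.next σ.init b) v n).2.map .r) := by
  induction n with
  | zero => rfl
  | succ n ih =>
    have h := pr_lr (τ := τ) (σ := σ) (a := a) (b := b) (u := u) (v := v)
      (cb τ (τ.next τ.init a) u n).2 (cb σ (σ.next σ.init b) v n).2
      ((cb τ (τ.next τ.init a) u n).1, (cb σ (σ.next σ.init b) v n).1)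
    have e : cb (pr τ σ a b u v) (τ.next τ.init a, σ.next σ.init b) (u.map .l ++ v.map .r)
        (n + 1) = (stAfter (pr τ σ a b u v) (cb (pr τ σ a b u v)
          (τ.next τ.init a, σ.next σ.init b) (u.map .l ++ v.map .r) n).1
          (cb (pr τ σ a b u v) (τ.next τ.init a, σ.next σ.init b)
            (u.map .l ++ v.map .r) n).2, (pr τ σ a b u v).run (cb (pr τ σ a b u v)
          (τ.next τ.init a, σ.next σ.init b) (u.map .l ++ v.map .r) n).1
          (cb (pr τ σ a b u v) (τ.next τ.init a, σ.next σ.init b)
            (u.map .l ++ v.map .r) n).2) := rfl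
    rw [e, ih]
    exact Prod.ext h.2 h.1

theorem pr_nonErasing (h1 : τ.NonErasing) (h2 : σ.NonErasing) :
    (pr τ σ a b u v).NonErasing := by
  intro s z
  cases z with
  | start => simp [pr]
  | l x => simpa [pr] using h1 _ _
  | r y => simpa [pr] using h2 _ _

/-- The decoding of the first iteration. -/
def dl (a : S) : PL S T → Option S
  | .start => some a
  | .l x => some x
  | .r _ => none

theorem filter_l (a : S) (U : List S) : ((U.map .l : List (PL S T))).filterMap (dl a) = U := by
  induction U with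
  | nil => rfl
  | cons x U ih => simp [dl, ih]

theorem filter_r (a : S) (V : List T) : ((V.map .r : List (PL S T))).filterMap (dl a) = [] := by
  induction V with
  | nil => rfl
  | cons x V ih => simp [dl]

theorem pr_iter (h1 : τ.out τ.init a = a :: u) (h2 : σ.out σ.init b = b :: v) (n : ℕ) :
    ((pr τ σ a b u v).map^[n] [.start]).filterMap (dl a) = τ.map^[n] [a] ∧
      ((pr τ σ a b u v).map^[n] [.start]).length + 1 =
        (τ.map^[n] [a]).length + (σ.map^[n] [b]).length := by
  have hout : (pr τ σ a b u v).out (pr τ σ a b u v).init .start =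
      .start :: (u.map .l ++ v.map .r) := rfl
  induction n with
  | zero => simp [dl]
  | succ n ih =>
    obtain ⟨ih1, ih2⟩ := ih
    have e : (pr τ σ a b u v).next (pr τ σ a b u v).init .start =
      (τ.next τ.init a, σ.next σ.init b) := rfl
    rw [(map_iter hout n).1, (map_iter h1 n).1, (map_iter h2 n).1, e, pr_cb]
    constructor
    · simp only [List.filterMap_append, ih1, filter_l, filter_r, List.append_nil]
    · simp only [List.length_append, List.length_map]
      omega

end

/-- The common iteration. -/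
theorem product {τ : Dgsm S} {σ : Dgsm T} (hτ : τ.NonErasing) (hσ : σ.NonErasing) {a : S} {b : T}
    {w : ℕ → S} {v : ℕ → T} (hw : τ.IsLimit a w) (hv : σ.IsLimit b v) :
    ∃ (ρ : Dgsm (PL S T)) (w' : ℕ → PL S T) (P : ℕ → ℕ), Nat.card ρ.Q = Nat.card τ.Q * Nat.card σ.Q ∧
      ρ.NonErasing ∧ ρ.IsLimit .start w' ∧ Dec (dl a) w' w P ∧
      (∀ n, (ρ.map^[n] [.start]).length + 1 = (τ.map^[n] [a]).length + (σ.map^[n] [b]).length) ∧
      ∀ k, P k < (ρ.map^[k] [.start]).length := by
  obtain ⟨u, hu, hu0⟩ := IsLimit.exists_out hτ hw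
  obtain ⟨v', hv', hv0⟩ := IsLimit.exists_out hσ hv
  have hne : (pr τ σ a b u v').NonErasing := pr_nonErasing hτ hσ
  have hout : (pr τ σ a b u v').out (pr τ σ a b u v').init .start =
      .start :: (u.map .l ++ v'.map .r) := rfl
  obtain ⟨w', hw'⟩ := exists_limit hne hout (by simp [hu0])
  obtain ⟨P, h1, h2⟩ := dec_of_filter (h := dl a) (w' := w') (w := w)
    (fun n => (pr τ σ a b u v').map^[n] [.start]) (fun n => τ.map^[n] [a])
    hw'.2.2 hw.2.2 (fun n => (pr_iter hu hv' n).1) (iter_length hτ hu hu0)
    (by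
      have := hw'.2.2 0 0 (by simp)
      have e : w' 0 = .start := by simpa using this.symm
      rw [e]
      rfl)
  refine ⟨pr τ σ a b u v', w', P, ?_, hne, hw', h1, fun n => (pr_iter hu hv' n).2, h2⟩
  show Nat.card (τ.Q × σ.Q) = _
  rw [Nat.card_prod]

end Pool.Agent.TH381.Dg
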